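import Pool.Agent.Work.MP_23451d_ld.Final

/-!
# MP_23451d_pr: strict inequality between `p_c` and `p_{q→q}` for regular graphs of large degree
relative to their spectral gap
-/

set_option autoImplicit false

namespace Pool.Agent.Results.MP_23451d_pr.LargeDegree

open MeasureTheory

open Classical in
/-- Let `G` be a connected `D`-regular graph whose adjacency operator `A` satisfies
`⟨A f, f⟩ ≤ ρ D ⟨f, f⟩` for all finitely supported `f`, with `0 < ρ < 1`, and let `q > 1`. If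
`D (1 - ρ)³ ≥ 18 max (q - 1, 1 / (q - 1))` then `p_c (G) < p_{q→q} (G)`. -/
theorem result :
  ∀ (V : Type) (G : SimpleGraph V),
    G.Connected →
    (∀ v : V, (G.neighborSet v).Finite) →
    ∀ (D : ℕ) (ρ : ℝ), (∀ v : V, (G.neighborSet v).ncard = D) → 0 < ρ → ρ < 1 →
    (∀ (K : Finset V) (f : V → ℝ),
      ∑ x ∈ K, ∑ y ∈ K, (if G.Adj x y then f x * f y else 0) ≤ ρ * D * ∑ x ∈ K, f x ^ 2) →
    ∀ q : ℝ, 1 < q → 18 * max (q - 1) (1 / (q - 1)) ≤ D * (1 - ρ) ^ 3 →
      sSup {p : ℝ | 0 ≤ p ∧ p ≤ 1 ∧ ∀ o : V,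
          Measure.infinitePi (fun _ : Sym2 V => (volume : Measure unitInterval))
            {ω : Sym2 V → unitInterval |
              Set.Infinite {v : V | ∃ w : G.Walk o v, ∀ e ∈ w.edges, ((ω e : unitInterval) : ℝ) < p}} = 0}
      < sSup {p : ℝ | 0 ≤ p ∧ p ≤ 1 ∧ ∃ C : ℝ, ∀ (S T : Finset V) (f : V → ℝ),
          ∑ u ∈ T, |∑ v ∈ S,
              (Measure.infinitePi (fun _ : Sym2 V => (volume : Measure unitInterval))
                {ω : Sym2 V → unitInterval |
                  ∃ w : G.Walk u v, ∀ e ∈ w.edges, ((ω e : unitInterval) : ℝ) < p}).toReal * f v| ^ q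
            ≤ C * ∑ v ∈ S, |f v| ^ q} :=
  Pool.L2D.finalA

end Pool.Agent.Results.MP_23451d_pr.LargeDegree
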