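import Pool.Agent.Work.MP_23451d_me.Final

/-!
# MP_23451d_pr: strict inequality between `p_c` and `p_{q→q}` for graphs with more than one end
-/

set_option autoImplicit false

namespace Pool.Agent.Results.MP_23451d_pr.ManyEnds

open MeasureTheory

/-- Let `G` be a connected, locally finite, quasi-transitive graph with positive edge Cheeger
constant which has more than one end: some set `A` of vertices such that `A` and its complement are
infinite has only finitely many edges to its complement. Then `p_c (G) < p_{q→q} (G)` for every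
`q > 1`. -/
theorem result :
  ∀ (V : Type) (G : SimpleGraph V),
    G.Connected →
    (∀ v : V, (G.neighborSet v).Finite) →
    (∃ F : Finset V, ∀ v : V, ∃ φ : G ≃g G, ∃ u ∈ F, φ u = v) →
    (∃ c : ℝ, 0 < c ∧ ∀ K : Finset V, K.Nonempty →
        c * (K.card : ℝ) ≤
          ((Set.ncard {x : V × V | x.1 ∈ K ∧ x.2 ∉ K ∧ G.Adj x.1 x.2} : ℕ) : ℝ)) →
    (∃ A : Set V, A.Infinite ∧ Aᶜ.Infinite ∧
        {x : V × V | x.1 ∈ A ∧ x.2 ∉ A ∧ G.Adj x.1 x.2}.Finite) →
    ∀ q : ℝ, 1 < q →
      sSup {p : ℝ | 0 ≤ p ∧ p ≤ 1 ∧ ∀ o : V,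
          Measure.infinitePi (fun _ : Sym2 V => (volume : Measure unitInterval))
            {ω : Sym2 V → unitInterval |
              Set.Infinite {v : V | ∃ w : G.Walk o v, ∀ e ∈ w.edges, ((ω e : unitInterval) : ℝ) < p}} = 0}
      < sSup {p : ℝ | 0 ≤ p ∧ p ≤ 1 ∧ ∃ C : ℝ, ∀ (S T : Finset V) (f : V → ℝ),
          ∑ u ∈ T, |∑ v ∈ S,
              (Measure.infinitePi (fun _ : Sym2 V => (volume : Measure unitInterval))
                {ω : Sym2 V → unitInterval |
                  ∃ w : G.Walk u v, ∀ e ∈ w.edges, ((ω e : unitInterval) : ℝ) < p}).toReal * f v| ^ q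
            ≤ C * ∑ v ∈ S, |f v| ^ q} :=
  Pool.L2B.final

end Pool.Agent.Results.MP_23451d_pr.ManyEnds
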