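import Pool.Agent.Work.MP_23451d_qt.Final

/-!
# MP_23451d_pr: strict inequality between `p_c` and `p_{q→q}` for WPD actions on quasi-trees
-/

set_option autoImplicit false

namespace Pool.Agent.Results.MP_23451d_pr.QuasiTreeActions

open MeasureTheory

/-- Let a group `Γ` act by automorphisms on a connected, locally finite graph `G` with finitely many
orbits of vertices, and on a connected graph `H` (vertex set `Q`) with the bottleneck property of
Manning (a quasi-tree), and let `π : V → Q` be equivariant. Suppose that some `f` in `Γ` satisfies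
`f ^ n o → ∞` for `o = π x₀` and is WPD, and that the orbits `f ^ m o` and `g f ^ n o` diverge
(`f` and its conjugate by `g` are independent). Then `p_c (G) < p_{q→q} (G)` for every `q > 1`. -/
theorem result :
  ∀ (V : Type) (G : SimpleGraph V), G.Connected → (∀ v, (G.neighborSet v).Finite) →
    ∀ (Γ : Type) [Group Γ] [MulAction Γ V],
    (∀ (γ : Γ) (x y : V), G.Adj x y → G.Adj (γ • x) (γ • y)) →
    (∃ F : Finset V, ∀ v : V, ∃ γ : Γ, ∃ u ∈ F, γ • u = v) →
    ∀ (Q : Type) (H : SimpleGraph Q) [MulAction Γ Q], H.Connected →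
    (∀ (γ : Γ) (a b : Q), H.Adj a b → H.Adj (γ • a) (γ • b)) →
    (∃ Δ : ℕ, ∀ (a b : Q) (t : ℕ), t ≤ H.dist a b →
      ∃ z : Q, H.dist a z = t ∧ H.dist z b + t = H.dist a b ∧
        ∀ w : H.Walk a b, ∃ c ∈ w.support, H.dist c z ≤ Δ) →
    ∀ π : V → Q, (∀ (γ : Γ) (x : V), π (γ • x) = γ • π x) →
    ∀ (x₀ : V) (f g : Γ),
    (∀ R, ∃ N₀ : ℕ, ∀ n : ℕ, N₀ ≤ n → R ≤ H.dist (π x₀) (f ^ n • π x₀)) →
    (∀ R, ∃ N₀ : ℕ, ∀ n : ℕ, N₀ ≤ n → ∀ x : V,
      {y : V | ∃ h : Γ, H.dist (π x₀) (h • π x₀) ≤ R ∧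
        H.dist (f ^ n • π x₀) ((h * f ^ n) • π x₀) ≤ R ∧ h • x = y}.Finite) →
    (∃ κ : ℕ, ∀ m n : ℤ, H.dist (π x₀) (f ^ m • π x₀) + H.dist (π x₀) ((g * f ^ n) • π x₀) ≤
      H.dist (f ^ m • π x₀) ((g * f ^ n) • π x₀) + κ) →
    ∀ q : ℝ, 1 < q →
      sSup {p : ℝ | 0 ≤ p ∧ p ≤ 1 ∧ ∀ o : V,
          Measure.infinitePi (fun _ : Sym2 V => (volume : Measure unitInterval))
            {ω : Sym2 V → unitInterval |
              Set.Infinite {v : V | ∃ w : G.Walk o v, ∀ e ∈ w.edges, ((ω e : unitInterval) : ℝ) < p}} = 0}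
      < sSup {p : ℝ | 0 ≤ p ∧ p ≤ 1 ∧ ∃ C : ℝ, ∀ (S T : Finset V) (f : V → ℝ),
          ∑ u ∈ T, |∑ v ∈ S,
              (Measure.infinitePi (fun _ : Sym2 V => (volume : Measure unitInterval))
                {ω : Sym2 V → unitInterval |
                  ∃ w : G.Walk u v, ∀ e ∈ w.edges, ((ω e : unitInterval) : ℝ) < p}).toReal * f v| ^ q
            ≤ C * ∑ v ∈ S, |f v| ^ q} :=
  Pool.L2Q.final

end Pool.Agent.Results.MP_23451d_pr.QuasiTreeActions
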